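import Pool.Agent.Lib_helper3.MD.Data
import Pool.Agent.Lib_helper3.MD.Count

/-!
# The double variational principle for finite-dimensional systems

For every homeomorphism `T` of a compact metrizable space of finite covering dimension (periodic
points are allowed) both minima in the double variational principle are attained and equal to the
mean dimension.
-/

set_option autoImplicit false

open MeasureTheory H3.MD

namespace Pool.Agent.Results.MP_9896a2_an.FiniteDim

/-- the metric -/
theorem exists_metric {X : Type*} [MetricSpace X] [CompactSpace X] [MeasurableSpace X]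
    [BorelSpace X] (T : X ≃ₜ X) {n : ℕ} (hX : DimLE X n) :
    ∃ d : CompatMetric X, ∀ μ : Measure X, IsProbabilityMeasure μ → MeasurePreserving T μ μ →
      rdimU T d.d μ = 0 := by
  obtain ⟨f, bad, hc, h01, hsep, hb, hk, H⟩ := exists_data T hX
  refine ⟨ddMetric h01 hc hsep, fun μ hμ hT => ?_⟩
  exact rdimU_eq_zero hc h01 hb hk T H hT

theorem result {X : Type*} [TopologicalSpace X] [CompactSpace X]
    [TopologicalSpace.MetrizableSpace X] [MeasurableSpace X] [BorelSpace X] (T : X ≃ₜ X)
    (hX : ∃ n : ℕ, DimLE X n) : DoubleVP T := by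
  obtain ⟨n, hn⟩ := hX
  have hex : ∃ d : CompatMetric X, ∀ μ : Measure X, IsProbabilityMeasure μ →
      MeasurePreserving T μ μ → rdimU T d.d μ = 0 := by
    let _ : MetricSpace X := TopologicalSpace.metrizableSpaceMetric X
    exact exists_metric T hn
  obtain ⟨d, hd⟩ := hex
  have hm : mdim T = 0 := mdim_eq_zero T.continuous hn
  have hU : supU T d.d = 0 := by
    unfold supU
    simp only [ENNReal.iSup_eq_zero]
    exact hd
  have hL : supL T d.d = 0 := by
    unfold supL
    simp only [ENNReal.iSup_eq_zero]
    intro μ hμ hT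
    refine le_antisymm ?_ bot_le
    rw [← hd μ hμ hT]
    exact Filter.liminf_le_limsup
  refine ⟨⟨⟨d, ?_⟩, ?_⟩, ⟨⟨d, ?_⟩, ?_⟩⟩
  · rw [hm]; exact hU
  · intro b _
    rw [hm]; exact bot_le
  · rw [hm]; exact hL
  · intro b _
    rw [hm]; exact bot_le

end Pool.Agent.Results.MP_9896a2_an.FiniteDim
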