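import Pool.Agent.DV.Final

/-!
# MP_9896a2_an: the double variational principle fails

There is a dynamical system `(X,T)` of mean dimension zero such that for every compatible metric `d`
some invariant probability measure has lower rate distortion dimension at least `1 / 32`. So both
equalities of Q1 fail.
-/

set_option autoImplicit false

open MeasureTheory Filter Topology
open scoped ENNReal

namespace Pool.Agent.Results.MP_9896a2_an.NoDoubleVP

open H3.MD Pool.Agent.DV

/-- The statement Q1. -/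
def Q1 : Prop := ∀ (X : Type) [TopologicalSpace X] [CompactSpace X]
  [TopologicalSpace.MetrizableSpace X] [MeasurableSpace X] [BorelSpace X] (T : X ≃ₜ X), DoubleVP T

theorem result :
    (∃ (X : Type) (_ : TopologicalSpace X) (_ : CompactSpace X)
      (_ : TopologicalSpace.MetrizableSpace X) (_ : Nonempty X) (_ : MeasurableSpace X)
      (_ : BorelSpace X) (T : X ≃ₜ X), H3.MD.mdim T = 0 ∧
      ∀ d : CompatMetric X,
        (∃ (μ : Measure X) (_ : IsProbabilityMeasure μ), MeasurePreserving T μ μ ∧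
          1 / 32 ≤ rdimL T d.d μ) ∧
        1 / 32 ≤ supL T d.d ∧ 1 / 32 ≤ supU T d.d ∧ 1 / 32 ≤ mmdimL T d.d) ∧ ¬ Q1 := by
  obtain ⟨X, h1, h2, h3, h4, h5, h6, T, hm, hd⟩ := system_all
  have hL : ∀ d : CompatMetric X, 1 / 32 ≤ supL T d.d ∧ 1 / 32 ≤ supU T d.d := by
    intro d
    obtain ⟨⟨μ, hμ, hT, hr⟩, -⟩ := hd d
    constructor
    · exact hr.trans (le_iSup_of_le μ (le_iSup_of_le hμ (le_iSup_of_le hT le_rfl)))
    · exact (hr.trans (Filter.liminf_le_limsup)).trans
        (le_iSup_of_le μ (le_iSup_of_le hμ (le_iSup_of_le hT le_rfl)))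
  refine ⟨⟨X, h1, h2, h3, h4, h5, h6, T, hm, fun d =>
    ⟨(hd d).1, (hL d).1, (hL d).2, (hd d).2⟩⟩, fun hQ => ?_⟩
  obtain ⟨-, ⟨d, hd2⟩, -⟩ := hQ X T
  have h7 : (1 / 32 : ℝ≥0∞) ≤ 0 := by
    have h8 := (hL d).1
    rw [hm] at hd2
    exact h8.trans hd2.le
  exact absurd h7 (not_le.2 (ENNReal.div_pos one_ne_zero (by norm_num)))

end Pool.Agent.Results.MP_9896a2_an.NoDoubleVP
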